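import Pool.Agent.helper89.PU.Spec1

set_option autoImplicit false

namespace Pool.Agent.PV

open Matrix Polynomial Pool.Agent.GO Pool.Agent.AR Pool.Agent.RG Pool.Agent.HZ Pool.Agent.DS
  Pool.Agent.AX Pool.Agent.UM Pool.Agent.PU MeasureTheory NumberField

theorem DBV_mul {A m : Type*} [CommRing A] [Fintype m] [DecidableEq m] (q : A) (hq : q * q = 0)
    (X Y : Matrix m m A) : (1 + q • X) * (1 + q • Y) = 1 + q • (X + Y) := by
  rw [Matrix.add_mul, Matrix.mul_add, Matrix.mul_add, Matrix.smul_mul, Matrix.mul_smul,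
    Matrix.smul_mul, Matrix.mul_smul, smul_smul, hq, zero_smul, smul_add]
  simp only [Matrix.one_mul, Matrix.mul_one, add_zero]
  abel

theorem DBV_pow {A m : Type*} [CommRing A] [Fintype m] [DecidableEq m] (q : A) (hq : q * q = 0)
    (X : Matrix m m A) (k : ℕ) : (1 + q • X) ^ k = 1 + q • ((k : A) • X) := by
  induction k with
  | zero => simp
  | succ k ih =>
    rw [pow_succ, ih, DBV_mul q hq]
    congr 2
    push_cast
    rw [add_smul, one_smul]

theorem DBV_dprod {Γ A m : Type} [Group Γ] [CommRing A] [Fintype m] [DecidableEq m]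
    (W : Γ →* Matrix m m A) (q : A) (hq : q * q = 0) (g h : Γ) (X : Matrix m m A)
    (hX : W h = 1 + q • X) (e : ℕ → ℕ) (n : ℕ) :
    W (dprod g h e n) =
      1 + q • ∑ k ∈ Finset.range n, (e k : A) • (W g ^ k * X * W g⁻¹ ^ k) := by
  induction n with
  | zero =>
    show W 1 = _
    simp
  | succ n ih =>
    show W (dprod g h e n * (g ^ n * h ^ e n * (g ^ n)⁻¹)) = _
    have h1 : W (g ^ n * h ^ e n * (g ^ n)⁻¹) =
        1 + q • ((e n : A) • (W g ^ n * X * W g⁻¹ ^ n)) := by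
      have h2 : (g ^ n)⁻¹ = g⁻¹ ^ n := (inv_pow g n).symm
      have h3 : W g ^ n * W g⁻¹ ^ n = 1 := by
        rw [← map_pow, ← map_pow, ← map_mul, inv_pow, mul_inv_cancel, map_one]
      rw [h2, map_mul, map_mul, map_pow, map_pow, map_pow, hX, DBV_pow q hq]
      rw [Matrix.mul_add, Matrix.add_mul, Matrix.mul_one, h3]
      congr 1
      simp only [Matrix.mul_smul, Matrix.smul_mul]
    rw [map_mul, ih, h1, DBV_mul q hq, Finset.sum_range_succ]

theorem DBV : DBV_stmt := by
  intro p _ Γ m _ _ _ V g h r n c e hc he hh i j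
  set I : Ideal ℤ_[p] := Ideal.span {(p : ℤ_[p]) ^ (2 * r)} with hI
  set φ : ℤ_[p] →+* ℤ_[p] ⧸ I := Ideal.Quotient.mk I with hφ
  have hmem : ∀ x : ℤ_[p], φ x = 0 ↔ (p : ℤ_[p]) ^ (2 * r) ∣ x := by
    intro x
    rw [hφ, Ideal.Quotient.eq_zero_iff_mem, hI, Ideal.mem_span_singleton]
  set q : ℤ_[p] ⧸ I := φ ((p : ℤ_[p]) ^ r) with hqdef
  have hq : q * q = 0 := by
    rw [hqdef, ← map_mul, hmem, ← pow_add, two_mul]
  choose x hx using hh
  have hVh : V h = 1 + (p : ℤ_[p]) ^ r • Matrix.of x := by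
    ext a b
    have h1 := hx a b
    rw [Matrix.sub_apply] at h1
    rw [Matrix.add_apply, Matrix.smul_apply, Matrix.of_apply, smul_eq_mul, ← h1]
    ring
  set W : Γ →* Matrix m m (ℤ_[p] ⧸ I) := mapHom φ V with hW
  have hWg : ∀ y, W y = (V y).map φ := fun y => rfl
  have hWh : W h = 1 + q • (Matrix.of x).map φ := by
    rw [hWg, hVh]
    ext a b
    simp only [Matrix.map_apply, Matrix.add_apply, Matrix.smul_apply, smul_eq_mul, map_add,
      map_mul, Matrix.of_apply]
    congr 1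
    rw [Matrix.one_apply, Matrix.one_apply]
    split_ifs <;> simp
  have h1 := DBV_dprod W q hq g h _ hWh e n
  have h2 : q • ∑ k ∈ Finset.range n,
      ((e k : ℕ) : ℤ_[p] ⧸ I) • (W g ^ k * (Matrix.of x).map φ * W g⁻¹ ^ k) = 0 := by
    have h3 : ∀ k, q * ((e k : ℕ) : ℤ_[p] ⧸ I) = q * φ (c k) := by
      intro k
      obtain ⟨d, hd⟩ := he k
      have h4 : ((e k : ℕ) : ℤ_[p] ⧸ I) = φ (c k) + q * φ d := by
        have h5 : ((e k : ℕ) : ℤ_[p]) = c k + (p : ℤ_[p]) ^ r * d := by rw [← hd]; ring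
        have h6 := congrArg φ h5
        rw [map_natCast, map_add, map_mul] at h6
        exact h6
      rw [h4, mul_add, ← mul_assoc, hq, zero_mul, add_zero]
    have h4 : ∑ k ∈ Finset.range n, φ (c k) • (W g ^ k * (Matrix.of x).map φ * W g⁻¹ ^ k) = 0 := by
      have h5 := congrArg (fun M : Matrix m m ℤ_[p] => φ.mapMatrix M) (hc (Matrix.of x))
      simp only [map_sum, map_zero] at h5
      rw [← h5]
      refine Finset.sum_congr rfl fun k _ => ?_
      have h6 : φ.mapMatrix (c k • (V g ^ k * Matrix.of x * V g⁻¹ ^ k)) =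
          φ (c k) • φ.mapMatrix (V g ^ k * Matrix.of x * V g⁻¹ ^ k) := by
        generalize V g ^ k * Matrix.of x * V g⁻¹ ^ k = M
        ext a b
        simp only [RingHom.mapMatrix_apply, Matrix.map_apply, Matrix.smul_apply, smul_eq_mul,
          map_mul]
      rw [h6, map_mul, map_mul, map_pow, map_pow]
      rfl
    rw [Finset.smul_sum]
    have h5 : ∀ k ∈ Finset.range n,
        q • ((e k : ℕ) : ℤ_[p] ⧸ I) • (W g ^ k * (Matrix.of x).map φ * W g⁻¹ ^ k) =
        q • φ (c k) • (W g ^ k * (Matrix.of x).map φ * W g⁻¹ ^ k) := by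
      intro k _
      rw [smul_smul, smul_smul, h3 k]
    rw [Finset.sum_congr rfl h5, ← Finset.smul_sum, h4, smul_zero]
  rw [h2, add_zero] at h1
  rw [← hmem]
  have h3 := congrFun (congrFun h1 i) j
  rw [hWg, Matrix.map_apply] at h3
  rw [Matrix.sub_apply, map_sub, h3, Matrix.one_apply, Matrix.one_apply]
  split_ifs <;> simp

end Pool.Agent.PV
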